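import Pool.Agent.J6H9.EX.Stm
import Pool.Agent.J6H46.EU.Den

set_option autoImplicit false

/-! # EX-EU: `W w d` is an Erdős–Ulam ideal -/

namespace Pool.Agent.J6H28.EX

open Filter Topology Pool.Agent.J6H9.EU Pool.Agent.J6H9.EX
open Pool.Agent.J6H46.EU (st_succ st_zero st_mono le_st idx idx_le lt_idx idx_eq le_idx idx_tendsto)

variable {w : ℕ → ℝ} {d : ℕ → ℕ}

/-- the weights -/
noncomputable def f (w : ℕ → ℝ) (d : ℕ → ℕ) (x : ℕ) : ℝ := 2 ^ idx d x * w x

lemma f_nonneg (hw : Meas w d) (x : ℕ) : 0 ≤ f w d x := by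
  unfold f
  exact mul_nonneg (by positivity) (hw.pos x).le

open Classical in
/-- weighted counting function -/
noncomputable def SA (w : ℕ → ℝ) (d : ℕ → ℕ) (A : Set ℕ) (N : ℕ) : ℝ :=
  ∑ i ∈ (Finset.range N).filter (· ∈ A), f w d i

open Classical in
/-- relative size in the interval number `n` -/
noncomputable def a (w : ℕ → ℝ) (d : ℕ → ℕ) (A : Set ℕ) (n : ℕ) : ℝ :=
  ∑ x ∈ (Dn d n).filter (· ∈ A), w x

lemma SA_mono (hw : Meas w d) (A : Set ℕ) : Monotone (SA w d A) := by
  classical
  intro M N h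
  unfold SA
  apply Finset.sum_le_sum_of_subset_of_nonneg
  · intro x hx
    rw [Finset.mem_filter, Finset.mem_range] at hx ⊢
    exact ⟨by omega, hx.2⟩
  · intro i _ _
    exact f_nonneg hw i

lemma SA_nonneg (hw : Meas w d) (A : Set ℕ) (N : ℕ) : 0 ≤ SA w d A N := by
  unfold SA
  exact Finset.sum_nonneg fun i _ => f_nonneg hw i

lemma SA_block (hw : Meas w d) (A : Set ℕ) (n : ℕ) :
    SA w d A (st d (n + 1)) = SA w d A (st d n) + 2 ^ n * a w d A n := by
  classical
  have h1 : ∑ i ∈ Finset.Ico (st d n) (st d n + d n), (if i ∈ A then f w d i else 0) =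
      2 ^ n * a w d A n := by
    rw [← Finset.sum_filter]
    unfold a Dn
    rw [Finset.mul_sum]
    refine Finset.sum_congr rfl fun i hi => ?_
    rw [Finset.mem_filter, Finset.mem_Ico] at hi
    unfold f
    rw [idx_eq hw.dpos hi.1.1 hi.1.2]
  unfold SA
  rw [Finset.sum_filter, Finset.sum_filter, ← h1, st_succ, Finset.range_eq_Ico, Finset.range_eq_Ico,
    Finset.sum_Ico_consecutive _ (Nat.zero_le _) (Nat.le_add_right _ _)]

lemma a_nonneg (hw : Meas w d) (A : Set ℕ) (n : ℕ) : 0 ≤ a w d A n := by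
  unfold a
  exact Finset.sum_nonneg fun i _ => (hw.pos i).le

lemma a_le_one (hw : Meas w d) (A : Set ℕ) (n : ℕ) : a w d A n ≤ 1 := by
  classical
  unfold a
  refine le_trans ?_ (hw.le n)
  exact Finset.sum_le_sum_of_subset_of_nonneg (Finset.filter_subset _ _) fun i _ _ => (hw.pos i).le

lemma a_univ (n : ℕ) : a w d Set.univ n = ∑ x ∈ Dn d n, w x := by
  classical
  unfold a
  congr 1
  ext x
  simp

lemma SA_univ (N : ℕ) : SA w d Set.univ N = ∑ i ∈ Finset.range N, f w d i := by
  classical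
  unfold SA
  congr 1
  ext x
  simp

lemma SA_le_univ (hw : Meas w d) (A : Set ℕ) (N : ℕ) : SA w d A N ≤ SA w d Set.univ N := by
  classical
  rw [SA_univ]
  unfold SA
  exact Finset.sum_le_sum_of_subset_of_nonneg (Finset.filter_subset _ _) fun i _ _ => f_nonneg hw i

lemma F_le (hw : Meas w d) (n : ℕ) : SA w d Set.univ (st d n) ≤ 2 ^ n - 1 := by
  induction n with
  | zero =>
    rw [st_zero]
    unfold SA
    simp
  | succ n ih =>
    rw [SA_block hw]
    have h1 := a_le_one hw Set.univ n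
    have h2 : (2 : ℝ) ^ n * a w d Set.univ n ≤ 2 ^ n * 1 := mul_le_mul_of_nonneg_left h1 (by positivity)
    rw [pow_succ]
    linarith

lemma F_st (hw : Meas w d) {c : ℝ} (hc : ∀ n, c ≤ ∑ x ∈ Dn d n, w x) (n : ℕ) :
    c * (2 ^ n - 1) ≤ SA w d Set.univ (st d n) := by
  induction n with
  | zero =>
    rw [st_zero]
    unfold SA
    simp
  | succ n ih =>
    rw [SA_block hw]
    have h1 : c ≤ a w d Set.univ n := by rw [a_univ]; exact hc n
    have h2 : (2 : ℝ) ^ n * c ≤ 2 ^ n * a w d Set.univ n := mul_le_mul_of_nonneg_left h1 (by positivity)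
    rw [pow_succ]
    linarith

lemma F_ge (hw : Meas w d) {c : ℝ} (hc : ∀ n, c ≤ ∑ x ∈ Dn d n, w x) (N : ℕ) :
    c * ((2 : ℝ) ^ idx d N - 1) ≤ SA w d Set.univ N :=
  (F_st hw hc _).trans (SA_mono hw _ (idx_le N))

lemma SA_le (hw : Meas w d) (A : Set ℕ) {K : ℕ} {ε : ℝ} (h : ∀ k, K ≤ k → a w d A k ≤ ε)
    (n : ℕ) : SA w d A (st d n) ≤ 2 ^ K + ε * 2 ^ n := by
  have hε : 0 ≤ ε := (a_nonneg hw A K).trans (h K le_rfl)
  induction n with
  | zero =>
    rw [st_zero]
    unfold SA
    simp only [Finset.range_zero, Finset.filter_empty, Finset.sum_empty]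
    positivity
  | succ n ih =>
    rcases Nat.lt_or_ge n K with h1 | h1
    · have h2 : SA w d A (st d (n + 1)) ≤ 2 ^ (n + 1) - 1 := (SA_le_univ hw A _).trans (F_le hw _)
      have h3 : (2 : ℝ) ^ (n + 1) ≤ 2 ^ K := pow_le_pow_right₀ (by norm_num) (by omega)
      have h4 : 0 ≤ ε * 2 ^ (n + 1) := by positivity
      linarith
    · rw [SA_block hw]
      have h2 := h n h1
      have h3 : (2 : ℝ) ^ n * a w d A n ≤ 2 ^ n * ε := mul_le_mul_of_nonneg_left h2 (by positivity)
      rw [pow_succ]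
      linarith

/-- **EX-EU** -/
theorem main : S_EU := by
  classical
  intro w d hw
  have hd := hw.dpos
  obtain ⟨c, hc0, hc⟩ := hw.ge
  have hidx := idx_tendsto hd
  have hpow : Tendsto (fun N => (2 : ℝ) ^ idx d N) atTop atTop :=
    (tendsto_pow_atTop_atTop_of_one_lt (by norm_num : (1 : ℝ) < 2)).comp hidx
  have hw0 : Tendsto w atTop (𝓝 0) := by
    rw [Metric.tendsto_atTop]
    intro ε hε
    obtain ⟨M, hM⟩ := hw.small (ε / 2) (by positivity)
    refine ⟨st d M, fun x hx => ?_⟩
    have h1 : w x ≤ ε / 2 := by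
      refine hM (idx d x) (le_idx hd hx) x ?_
      unfold Dn
      rw [Finset.mem_Ico, ← st_succ]
      exact ⟨idx_le x, lt_idx hd x⟩
    rw [Real.dist_eq, sub_zero, abs_of_pos (hw.pos x)]
    linarith
  refine ⟨f w d, fun n => f_nonneg hw n, ?_, ?_, ?_⟩
  · refine tendsto_atTop_mono (f := fun N => c * ((2 : ℝ) ^ idx d N + (-1))) (fun N => ?_)
      ((tendsto_atTop_add_const_right _ _ hpow).const_mul_atTop hc0)
    rw [← SA_univ]
    have := F_ge hw hc N
    rw [← sub_eq_add_neg]
    exact this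
  · have h1 : Tendsto (fun N => 2 / c * w N) atTop (𝓝 0) := by
      have := hw0.const_mul (2 / c)
      rwa [mul_zero] at this
    refine squeeze_zero' (Eventually.of_forall fun x => ?_) ?_ h1
    · rw [← SA_univ]
      exact div_nonneg (f_nonneg hw x) (SA_nonneg hw _ _)
    · filter_upwards [hidx.eventually_ge_atTop 1] with x hx
      rw [← SA_univ]
      have h2 := F_ge hw hc x
      have h3 : SA w d Set.univ x ≤ SA w d Set.univ (x + 1) := SA_mono hw _ (by omega)
      have h4 : (2 : ℝ) ≤ 2 ^ idx d x := by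
        calc (2 : ℝ) = 2 ^ 1 := (pow_one 2).symm
          _ ≤ 2 ^ idx d x := pow_le_pow_right₀ (by norm_num) hx
      have h5 : c * ((2 : ℝ) ^ idx d x / 2) ≤ SA w d Set.univ (x + 1) := by
        have : c * ((2 : ℝ) ^ idx d x / 2) ≤ c * ((2 : ℝ) ^ idx d x - 1) :=
          mul_le_mul_of_nonneg_left (by linarith) hc0.le
        linarith
      have h6 : (0 : ℝ) < c * (2 ^ idx d x / 2) := by positivity
      calc f w d x / SA w d Set.univ (x + 1) ≤ f w d x / (c * (2 ^ idx d x / 2)) := by
            apply div_le_div_of_nonneg_left (f_nonneg hw x) h6 h5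
        _ = 2 / c * w x := by
            unfold f
            field_simp
  · ext A
    have hUA : A ∈ W w d ↔ Tendsto (a w d A) atTop (𝓝 0) := Iff.rfl
    have hEA : A ∈ Pool.Agent.J6H9.EU.EU (f w d) ↔
        Tendsto (fun n => SA w d A n / SA w d Set.univ n) atTop (𝓝 0) := by
      simp_rw [SA_univ]
      exact Iff.rfl
    rw [hUA, hEA]
    constructor
    · intro h
      rw [Metric.tendsto_atTop] at h ⊢
      intro ε hε
      obtain ⟨K, hK⟩ := h (c * ε / 16) (by positivity)
      have hK' : ∀ k, K ≤ k → a w d A k ≤ c * ε / 16 := by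
        intro k hk
        have := hK k hk
        rw [Real.dist_eq, sub_zero] at this
        exact (le_abs_self _).trans this.le
      have hev := (hpow.eventually_ge_atTop (max 2 (8 * 2 ^ K / (c * ε))))
      obtain ⟨N0, hN0⟩ := eventually_atTop.1 hev
      refine ⟨N0, fun N hN => ?_⟩
      have h1 := hN0 N hN
      have h2 : (2 : ℝ) ≤ 2 ^ idx d N := (le_max_left _ _).trans h1
      have h3 : 8 * 2 ^ K / (c * ε) ≤ 2 ^ idx d N := (le_max_right _ _).trans h1
      rw [div_le_iff₀ (by positivity)] at h3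
      have h4 := F_ge hw hc N
      have h5 : SA w d A N ≤ SA w d A (st d (idx d N + 1)) := SA_mono hw _ (lt_idx hd N).le
      have h6 := SA_le hw A hK' (idx d N + 1)
      rw [pow_succ] at h6
      have h7 : 0 ≤ SA w d A N := SA_nonneg hw _ _
      have h4' : c * ((2 : ℝ) ^ idx d N / 2) ≤ SA w d Set.univ N := by
        have : c * ((2 : ℝ) ^ idx d N / 2) ≤ c * ((2 : ℝ) ^ idx d N - 1) :=
          mul_le_mul_of_nonneg_left (by linarith) hc0.le
        linarith
      have h8' : (0 : ℝ) < c * (2 ^ idx d N / 2) := by positivity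
      have h8 : (0 : ℝ) < SA w d Set.univ N := by linarith
      rw [Real.dist_eq, sub_zero, abs_of_nonneg (div_nonneg h7 h8.le), div_lt_iff₀ h8]
      have h9 : ε * (c * (2 ^ idx d N / 2)) ≤ ε * SA w d Set.univ N :=
        mul_le_mul_of_nonneg_left h4' hε.le
      obtain ⟨X, hX⟩ : ∃ X : ℝ, X = c * ε * 2 ^ idx d N := ⟨_, rfl⟩
      have h10 : (0 : ℝ) < X := by rw [hX]; positivity
      have e1 : ε * (c * (2 ^ idx d N / 2)) = X / 2 := by rw [hX]; ring
      have e2 : c * ε / 16 * (2 ^ idx d N * 2) = X / 8 := by rw [hX]; ring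
      have e3 : (2 : ℝ) ^ idx d N * (c * ε) = X := by rw [hX]; ring
      rw [e1] at h9
      rw [e2] at h6
      rw [e3] at h3
      linarith
    · intro h
      have h1 : Tendsto (fun n => st d (n + 1)) atTop atTop := by
        refine tendsto_atTop_mono (fun n => ?_) tendsto_id
        exact (Nat.le_succ n).trans (le_st hd (n + 1))
      have h2 : Tendsto (fun n => 2 * (SA w d A (st d (n + 1)) / SA w d Set.univ (st d (n + 1)))) atTop
          (𝓝 0) := by
        have := (h.comp h1).const_mul 2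
        rw [mul_zero] at this
        exact this
      refine squeeze_zero (fun n => a_nonneg hw A n) (fun n => ?_) h2
      have h4 : (1 : ℝ) ≤ 2 ^ n := one_le_pow₀ (by norm_num)
      have h3 : 0 ≤ SA w d A (st d n) := SA_nonneg hw _ _
      have h5 : (0 : ℝ) < SA w d Set.univ (st d (n + 1)) := by
        refine lt_of_lt_of_le ?_ (F_st hw hc (n + 1))
        rw [pow_succ]
        have : (0 : ℝ) < 2 ^ n * 2 - 1 := by linarith
        positivity
      have h7 := F_le hw (n + 1)
      rw [← mul_div_assoc, le_div_iff₀ h5, SA_block hw A]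
      have h6 := a_nonneg hw A n
      have h8 : a w d A n * SA w d Set.univ (st d (n + 1)) ≤ a w d A n * (2 ^ (n + 1) - 1) :=
        mul_le_mul_of_nonneg_left h7 h6
      rw [pow_succ] at h8
      nlinarith

end Pool.Agent.J6H28.EX
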